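import Pool.Agent.RSN.Fixed

set_option autoImplicit false

namespace Pool.Agent.Results.MP_f5d2e4_al.Involutions

/-- Let `G` be a group all of whose subgroups are finitely generated, and let every nontrivial
element of `G` lie outside some term of the derived series. If the product of any two elements of
order at most two has finite order (in particular if `G` is periodic), then some term `G^(k)` of
the derived series has no element of even order; and `G^(k)` is insoluble if `G` is. -/
theorem result (G : Type) [Group G] (hmax : ∀ H : Subgroup G, H.FG)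
    (hres : ∀ g : G, g ≠ 1 → ∃ n : ℕ, g ∉ derivedSeries G n)
    (hdih : ∀ u v : G, u ^ 2 = 1 → v ^ 2 = 1 → IsOfFinOrder (u * v)) :
    ∃ k : ℕ, (∀ x ∈ derivedSeries G k, IsOfFinOrder x → Odd (orderOf x)) ∧
      (¬ Group.IsSolvable G → ¬ Group.IsSolvable (derivedSeries G k)) := by
  obtain ⟨k, hk⟩ := Pool.Agent.RSN.no_involutions hmax hres hdih
  refine ⟨k, fun x hx hfin => ?_, fun hG hD => hG ?_⟩
  · rw [← Nat.not_even_iff_odd]
    intro hev
    obtain ⟨m, hm⟩ := hev
    have hpos : 0 < orderOf x := hfin.orderOf_pos
    have hm0 : 0 < m := by omega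
    have h1 : x ^ m = 1 := by
      refine hk (x ^ m) (pow_mem hx m) ?_
      rw [← pow_mul]
      have : m * 2 = orderOf x := by omega
      rw [this, pow_orderOf_eq_one]
    have h2 := orderOf_le_of_pow_eq_one hm0 h1
    omega
  · have hq : Group.IsSolvable (G ⧸ derivedSeries G k) := by
      refine ⟨⟨k, ?_⟩⟩
      rw [← map_derivedSeries_eq (QuotientGroup.mk'_surjective (derivedSeries G k)) k,
        Subgroup.map_eq_bot_iff, QuotientGroup.ker_mk']
    exact (Group.isSolvable_iff_subgroup_quotient (derivedSeries G k)).mpr ⟨hD, hq⟩

end Pool.Agent.Results.MP_f5d2e4_al.Involutions
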