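import Pool.Agent.RSG.R

set_option autoImplicit false

namespace Pool.Agent.Results.MP_f5d2e4_al.NGroupReduction

open Subgroup Pool.Agent.MP_f5d2e4_al

universe u

/-- Let `G` satisfy the maximal condition, and let `G` be residually soluble and insoluble, or let
`G` have neither an infinite perfect subgroup nor a soluble subgroup of finite index. Then `G` has
a section `H` which is residually soluble, insoluble, with the maximal condition, all of whose local
subgroups are soluble, and which is of one of three types. -/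
theorem result (G : Type u) [Group G] (hmax : HasMax G)
    (hG : (ResSol G ∧ ¬ Group.IsSolvable G) ∨
      ((∀ P : Subgroup G, ⁅P, P⁆ = P → Finite P) ∧
        ∀ S : Subgroup G, S.FiniteIndex → ¬ Group.IsSolvable S)) :
    ∃ (H : Type u) (_ : Group H), IsSection H G ∧ HasMax H ∧ ResSol H ∧ ¬ Group.IsSolvable H ∧
      Reduced H ∧
      (PeriodicReduced H ∨ ∀ S : Subgroup H, (∀ s : S, IsOfFinOrder s) → Finite S) ∧
      ((Residually TFNil H ∧ (∀ S : Subgroup H, Group.IsSolvable S → Group.IsNilpotent S) ∧
          ∃ x y : H, closure {x, y} = ⊤) ∨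
        (∃ p : ℕ, p.Prime ∧ Residually (FP p) H ∧ (∀ K : Subgroup H, HasPeriodicFactor K) ∧
          ((∀ h : H, IsOfFinOrder h) → IsPGroup p H ∧
            ∃ x y : H, x ^ p = 1 ∧ y ^ p = 1 ∧ closure {x, y} = ⊤)) ∨
        ((∀ K : Subgroup H, ¬ Group.IsSolvable K → ∀ n, ¬ Residually (NilLen n) K) ∧
          ((∀ h : H, IsOfFinOrder h) → ∀ p : ℕ, p.Prime → ∀ P : Subgroup H, IsPGroup p P →
            Finite P))) := by
  rcases hG with ⟨hres, hins⟩ | ⟨hp, hv⟩
  · exact main2 G hmax hres hins
  · obtain ⟨R, hR, hres, hins⟩ := exists_quotient hv hp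
    obtain ⟨H, iH, hsec, hrest⟩ := main2 (G ⧸ R)
      (hmax.of_surjective (QuotientGroup.mk' R) (QuotientGroup.mk'_surjective R)) hres hins
    exact ⟨H, iH, hsec.of_quotient R, hrest⟩

end Pool.Agent.Results.MP_f5d2e4_al.NGroupReduction
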