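import Pool.Agent.RSN.Ordered

set_option autoImplicit false

namespace Pool.Agent.Results.MP_f5d2e4_al.Ordered

open Function

/-- `G` has a total order that is invariant under left and right multiplication. -/
def BiOrderable (G : Type) [Group G] : Prop :=
  ∃ r : LinearOrder G, ∀ a b c : G, r.le a b → r.le (c * a) (c * b) ∧ r.le (a * c) (b * c)

/-- `G` is residually (torsion-free nilpotent). -/
def ResTFNil (G : Type) [Group G] : Prop :=
  ∀ x : G, x ≠ 1 → ∃ (N : Subgroup G) (_ : N.Normal), x ∉ N ∧ Group.IsNilpotent (G ⧸ N) ∧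
    ∀ y : G ⧸ N, y ≠ 1 → ∀ n : ℕ, 0 < n → y ^ n ≠ 1

/-- `A` is a maximal nilpotent subgroup of `G`. -/
def MaxNilpotent {G : Type} [Group G] (A : Subgroup G) : Prop :=
  Group.IsNilpotent A ∧ ∀ B : Subgroup G, Group.IsNilpotent B → A ≤ B → B = A

theorem rtn_of_resTFNil {G : Type} [Group G] (h : ResTFNil G) : Pool.Agent.RSN.RTN G := by
  intro x hx
  obtain ⟨N, hN, hxN, hnil, htf⟩ := h x hx
  obtain ⟨k, hk⟩ := Subgroup.nilpotent_iff_lowerCentralSeries.mp hnil
  refine ⟨N, ⟨hN, ⟨k, ?_⟩, ?_⟩, hxN⟩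
  · rw [← Subgroup.map_top_of_surjective _ (QuotientGroup.mk'_surjective N),
      ← Subgroup.map_lowerCentralSeries, Subgroup.map_eq_bot_iff, QuotientGroup.ker_mk'] at hk
    exact hk
  · intro y n hn hy
    by_contra hyN
    refine htf (QuotientGroup.mk y) (fun h1 => hyN ((QuotientGroup.eq_one_iff y).mp h1)) n hn ?_
    rw [← QuotientGroup.mk_pow]
    exact (QuotientGroup.eq_one_iff _).mpr hy

theorem resTFNil_of_rtn {G : Type} [Group G] (h : Pool.Agent.RSN.RTN G) : ResTFNil G := by
  intro x hx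
  obtain ⟨N, ⟨hN, ⟨k, hk⟩, hiso⟩, hxN⟩ := h x hx
  refine ⟨N, hN, hxN, Subgroup.nilpotent_iff_lowerCentralSeries.mpr ⟨k, ?_⟩, ?_⟩
  · rw [← Subgroup.map_top_of_surjective _ (QuotientGroup.mk'_surjective N),
      ← Subgroup.map_lowerCentralSeries, Subgroup.map_eq_bot_iff, QuotientGroup.ker_mk']
    exact hk
  · intro y hy n hn hyn
    induction y using QuotientGroup.induction_on with
    | H y =>
      rw [← QuotientGroup.mk_pow, QuotientGroup.eq_one_iff] at hyn
      exact hy ((QuotientGroup.eq_one_iff y).mpr (hiso y n hn hyn))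

/-- Let `G` be an insoluble group all of whose subgroups are finitely generated, and let `G` be
bi-orderable or residually (torsion-free nilpotent). Then some subgroup `H` of `G` has a quotient
`Q` that is insoluble, has all its subgroups finitely generated, is generated by two elements, is
residually soluble and even
residually (torsion-free nilpotent), and in which

* every soluble subgroup is nilpotent, centralisers of nontrivial elements are nilpotent, and
  normalisers of nontrivial soluble subgroups are nilpotent;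
* for every subgroup `L` and nontrivial normal subgroup `M` of `L`, if `L / M` is residually
  (torsion-free nilpotent) then it is nilpotent; and if `L` is not nilpotent then two nontrivial
  normal subgroups of `L` never commute;
* distinct maximal nilpotent subgroups meet trivially and each maximal nilpotent subgroup is
  malnormal. -/
theorem result (G : Type) [Group G] (hmax : ∀ H : Subgroup G, H.FG) (hns : ¬ Group.IsSolvable G)
    (hG : BiOrderable G ∨ ResTFNil G) :
    ∃ (H : Subgroup G) (Q : Type) (_ : Group Q) (f : H →* Q), Surjective f ∧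
      (∀ K : Subgroup Q, K.FG) ∧ (∃ x y : Q, Subgroup.closure ({x, y} : Set Q) = ⊤) ∧
      ¬ Group.IsSolvable Q ∧
      (∀ x : Q, x ≠ 1 → ∃ n : ℕ, x ∉ derivedSeries Q n) ∧ ResTFNil Q ∧
      (∀ L : Subgroup Q, Group.IsSolvable L → Group.IsNilpotent L) ∧
      (∀ x : Q, x ≠ 1 → Group.IsNilpotent (Subgroup.centralizer ({x} : Set Q))) ∧
      (∀ A : Subgroup Q, A ≠ ⊥ → Group.IsSolvable A →
        Group.IsNilpotent (Subgroup.normalizer (A : Set Q))) ∧
      (∀ (L : Subgroup Q) (M : Subgroup L) [M.Normal], M ≠ ⊥ → ResTFNil (L ⧸ M) →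
        Group.IsNilpotent (L ⧸ M)) ∧
      (∀ (L : Subgroup Q) (M N : Subgroup L), M.Normal → N.Normal → M ≠ ⊥ → N ≠ ⊥ →
        ⁅M, N⁆ = ⊥ → Group.IsNilpotent L) ∧
      (∀ A B : Subgroup Q, MaxNilpotent A → MaxNilpotent B → A ≠ B → A ⊓ B = ⊥) ∧
      (∀ A : Subgroup Q, MaxNilpotent A → ∀ g : Q, g ∉ A →
        A ⊓ A.map (MulAut.conj g).toMonoidHom = ⊥) := by
  obtain ⟨H, Q, instQ, f, hf, hQ, hxy⟩ : ∃ (H : Subgroup G) (Q : Type) (_ : Group Q) (f : H →* Q),
      Surjective f ∧ Pool.Agent.RSN.MinQ Q ∧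
        ∃ x y : Q, Subgroup.closure ({x, y} : Set Q) = ⊤ := by
    rcases hG with ⟨r, hr⟩ | hG
    · let := r
      have : MulLeftMono G := ⟨fun c a b hab => (hr a b c hab).1⟩
      have : MulRightMono G := ⟨fun c a b hab => (hr a b c hab).2⟩
      exact Pool.Agent.RSN.exists_MinQ hmax hns
    · exact Pool.Agent.RSN.exists_MinQ_of_SecP hmax
        ⟨_, ⊤, G, inferInstance, (⊤ : Subgroup G).subtype, fun g => ⟨⟨g, trivial⟩, rfl⟩, rfl,
          rtn_of_resTFNil hG, hns⟩
  refine ⟨H, Q, instQ, f, hf, hQ.max, hxy, hQ.ins, ?_, resTFNil_of_rtn hQ.res, hQ.nil_of_sol,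
    hQ.centralizer, hQ.normalizer, ?_, ?_, hQ.inf_eq_bot, hQ.malnormal⟩
  · -- residually soluble
    intro x hx
    obtain ⟨N, hN, hxN⟩ := hQ.res x hx
    have hNn := hN.normal
    obtain ⟨k, hk⟩ := hN.nil
    have hnil : Group.IsNilpotent (Q ⧸ N) := by
      refine Subgroup.nilpotent_iff_lowerCentralSeries.mpr ⟨k, ?_⟩
      rw [← Subgroup.map_top_of_surjective _ (QuotientGroup.mk'_surjective N),
        ← Subgroup.map_lowerCentralSeries, Subgroup.map_eq_bot_iff, QuotientGroup.ker_mk']
      exact hk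
    have hsol : Group.IsSolvable (Q ⧸ N) := inferInstance
    obtain ⟨m, hm⟩ := hsol.solvable
    rw [← map_derivedSeries_eq (QuotientGroup.mk'_surjective N), Subgroup.map_eq_bot_iff,
      QuotientGroup.ker_mk'] at hm
    exact ⟨m, fun h => hxN (hm h)⟩
  · intro L M _ hM hres
    have h1 := rtn_of_resTFNil hres
    have h2 : Group.IsSolvable (L ⧸ M) := by
      by_contra h
      exact hQ.min L M hM ⟨h1, h⟩
    exact h1.nilpotent (Pool.Agent.RSN.max_of_surjective
      (fun K => Pool.Agent.RSN.section_max hQ.max (MonoidHom.id L) surjective_id K) _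
      (QuotientGroup.mk'_surjective M)) h2
  · intro L M N hM hN hM1 hN1 hMN
    exact hQ.prime L M N hM1 hN1 hMN

end Pool.Agent.Results.MP_f5d2e4_al.Ordered
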